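import Pool.Agent.Helper6.EV.Stage

/-! The elliptic stage. -/

set_option autoImplicit false
set_option linter.unusedSectionVars false

namespace Pool.Agent.Helper6.EV

open EE EU Polynomial IntermediateField

section

variable {C L : Type} [Field C] [CharZero C] [Field L] [Algebra C L] {κ : Type} [Finite κ]

/-- the coefficients of a function on a Weierstrass curve -/
noncomputable def cf {M : Type} [Semiring M] (A B : M[X]) : ℕ ⊕ ℕ → M := Sum.elim A.coeff B.coeff

/-- the polynomial in two variables -/
noncomputable def two {M : Type} [CommRing M] (A B : M[X]) : M[X][X] :=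
  Polynomial.C A + Polynomial.C B * X

theorem two_aeval {M : Type} [CommRing M] {R : Type} [CommRing R] [Algebra M R] (x y : R)
    (A B : M[X]) : aevalAeval x y (two A B) = aeval x A + aeval x B * y := by
  unfold two
  rw [map_add, map_mul, aevalAeval_C, aevalAeval_C, aevalAeval_Y]

theorem two_map {M R : Type} [CommRing M] [CommRing R] (φ : M →+* R) (A B : M[X]) :
    (two A B).map (mapRingHom φ) = two (A.map φ) (B.map φ) := by
  unfold two
  rw [Polynomial.map_add, Polynomial.map_mul, map_C, map_C, map_X]
  rfl

theorem weq_map {M R : Type} [Field M] [Field R] (φ : M →+* R) (a b : M) :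
    (weq a b).map (mapRingHom φ) = weq (φ a) (φ b) := by
  unfold weq cub
  rw [Polynomial.map_sub, Polynomial.map_pow, map_X, map_C, coe_mapRingHom]
  simp

/-- **The elliptic stage.** -/
theorem ell_stage {F' : IntermediateField C L} {a b : C} {x y : L} (hx : Transcendental F' x)
    (hy : y ^ 2 = x ^ 3 + algebraMap C L a * x + algebraMap C L b) {v : κ → L}
    (h1 : Prp v (IntermediateField.adjoin C ((F' : Set L) ∪ {x, y}))) (h2 : ¬ Prp v F') :
    ∃ (g : L) (A B : κ → L[X]), (∀ j, v j = g * ((A j).eval x + (B j).eval x * y)) ∧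
      (∃ i j s t, cf (A i) (B i) s * cf (A j) (B j) t ≠ cf (A j) (B j) s * cf (A i) (B i) t) ∧
      ∀ (e : ℕ) (G : MvPolynomial κ C), G.IsHomogeneous e → MvPolynomial.aeval v G = 0 →
        (MvPolynomial.aeval (fun j => two (A j) (B j)) G : L[X][X]) %ₘ
          weq (algebraMap C L a) (algebraMap C L b) = 0 := by
  obtain ⟨g, u, hu, hv⟩ := h1
  have hu' : ∀ j, u j ∈ IntermediateField.adjoin F' {x, y} := by
    intro j
    have h3 := hu j
    rw [← IntermediateField.restrictScalars_adjoin] at h3
    exact h3
  have hy' : y ^ 2 = x ^ 3 + algebraMap F' L (algebraMap C F' a) * x +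
      algebraMap F' L (algebraMap C F' b) := hy
  have h3 : ∀ j, ∃ A ∈ IntermediateField.adjoin F' {x}, ∃ B ∈ IntermediateField.adjoin F' {x},
      u j = A + B * y := fun j => mem_ell hx hy' (hu' j)
  choose A hA B hB hAB using h3
  obtain ⟨c, W, hW⟩ := common (κ := κ ⊕ κ) hx (u := Sum.elim A B) (by
    rintro (j | j)
    · exact hA j
    · exact hB j)
  have hWA : ∀ j, A j = c * aeval x (W (Sum.inl j)) := fun j => hW (Sum.inl j)
  have hWB : ∀ j, B j = c * aeval x (W (Sum.inr j)) := fun j => hW (Sum.inr j)
  have hev : ∀ P : F'[X], (P.map (algebraMap F' L)).eval x = aeval x P := fun P => by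
    rw [eval_map_algebraMap]
  have hv' : ∀ j, v j = g * c * (aeval x (W (Sum.inl j)) + aeval x (W (Sum.inr j)) * y) := by
    intro j
    rw [hv, hAB, hWA, hWB]
    ring
  have hgc : g * c ≠ 0 := by
    intro h0
    apply h2
    exact ⟨0, fun _ => 0, fun _ => zero_mem _, fun j => by rw [hv', h0]; simp⟩
  refine ⟨g * c, fun j => (W (Sum.inl j)).map (algebraMap F' L),
    fun j => (W (Sum.inr j)).map (algebraMap F' L), fun j => by rw [hv', hev, hev], ?_, ?_⟩
  · by_contra hcon
    push Not at hcon
    apply h2
    have hcf : ∀ (P Q : F'[X]) s, cf (P.map (algebraMap F' L)) (Q.map (algebraMap F' L)) s =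
        algebraMap F' L (cf P Q s) := by
      intro P Q s
      rcases s with s | s
      · exact coeff_map _ _
      · exact coeff_map _ _
    have h3 : ∀ i j s t, cf (W (Sum.inl i)) (W (Sum.inr i)) s *
        cf (W (Sum.inl j)) (W (Sum.inr j)) t =
        cf (W (Sum.inl j)) (W (Sum.inr j)) s * cf (W (Sum.inl i)) (W (Sum.inr i)) t := by
      intro i j s t
      have h4 := hcon i j s t
      simp only [hcf] at h4
      rw [← map_mul, ← map_mul] at h4
      exact (algebraMap F' L).injective h4
    obtain ⟨c', w0, hw0⟩ := prop_of (w := fun j s => cf (W (Sum.inl j)) (W (Sum.inr j)) s) h3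
    have hwl : ∀ j m, (W (Sum.inl j)).coeff m = c' j * w0 (Sum.inl m) := fun j m =>
      hw0 j (Sum.inl m)
    have hwr : ∀ j m, (W (Sum.inr j)).coeff m = c' j * w0 (Sum.inr m) := fun j m =>
      hw0 j (Sum.inr m)
    by_cases hz : ∀ j, c' j = 0
    · have hz' : ∀ j, W j = 0 := by
        rintro (j | j)
        · ext m
          rw [hwl, hz]; simp
        · ext m
          rw [hwr, hz]; simp
      exact ⟨0, fun _ => 0, fun _ => zero_mem _, fun j => by rw [hv', hz', hz']; simp⟩
    push Not at hz
    obtain ⟨l, hcl⟩ := hz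
    refine ⟨g * c * (aeval x (W (Sum.inl l)) + aeval x (W (Sum.inr l)) * y),
      fun j => algebraMap F' L (c' j / c' l), fun j => (c' j / c' l).2, fun j => ?_⟩
    have h5 : W (Sum.inl j) = Polynomial.C (c' j / c' l) * W (Sum.inl l) := by
      ext m
      rw [coeff_C_mul, hwl, hwl]
      field_simp
    have h6 : W (Sum.inr j) = Polynomial.C (c' j / c' l) * W (Sum.inr l) := by
      ext m
      rw [coeff_C_mul, hwr, hwr]
      field_simp
    rw [hv', h5, h6, map_mul, map_mul, aeval_C]
    ring
  · intro e G hG h3
    have h4 : MvPolynomial.aeval (fun j => g * c *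
        (aeval x (W (Sum.inl j)) + aeval x (W (Sum.inr j)) * y)) G = 0 := by
      rw [← h3]
      congr 2
      funext j
      exact (hv' j).symm
    rw [aeval_wt hG, mul_eq_zero, or_iff_right (pow_ne_zero _ hgc)] at h4
    have h5 : (MvPolynomial.aeval (fun j => two (W (Sum.inl j)) (W (Sum.inr j))) G : F'[X][X]) %ₘ
        weq (algebraMap C F' a) (algebraMap C F' b) = 0 := by
      rw [← eval_curve hx hy', ← h4]
      have := MvPolynomial.comp_aeval_apply (f := fun j => two (W (Sum.inl j)) (W (Sum.inr j)))
        (((aevalAeval x y : F'[X][X] →ₐ[F'] L)).restrictScalars C) G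
      refine this.trans ?_
      congr 2
      funext j
      exact two_aeval x y _ _
    have h7 := congrArg (Polynomial.map (mapRingHom (algebraMap F' L))) h5
    rw [Polynomial.map_modByMonic _ (weq_monic _ _), Polynomial.map_zero, weq_map] at h7
    have h8 := MvPolynomial.comp_aeval_apply (f := fun j => two (W (Sum.inl j)) (W (Sum.inr j)))
      ((Polynomial.mapAlgHom (Polynomial.mapAlgHom (Algebra.ofId F' L))).restrictScalars C) G
    have h9 : (MvPolynomial.aeval (fun j => two ((W (Sum.inl j)).map (algebraMap F' L))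
        ((W (Sum.inr j)).map (algebraMap F' L))) G : L[X][X]) =
        Polynomial.map (mapRingHom (algebraMap F' L))
          (MvPolynomial.aeval (fun j => two (W (Sum.inl j)) (W (Sum.inr j))) G : F'[X][X]) := by
      have h10 : ∀ P : F'[X][X], Polynomial.map (mapRingHom (algebraMap F' L)) P =
        ((Polynomial.mapAlgHom (Polynomial.mapAlgHom (Algebra.ofId F' L))).restrictScalars C) P :=
        fun P => rfl
      rw [h10, h8]
      congr 2
      funext j
      rw [← h10, two_map]
    rw [h9]
    exact h7

end

end Pool.Agent.Helper6.EV
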