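import Pool.Agent.Helper6.EU.Cov
import Pool.Agent.Helper6.EE.ExtE

/-! Points over good fields lie on rational or elliptic curves. -/

set_option autoImplicit false
set_option linter.unusedSectionVars false

namespace Pool.Agent.Helper6.EV

open EE EU Polynomial IntermediateField

section

variable {C L : Type} [Field C] [CharZero C] [Field L] [Algebra C L] {κ : Type} [Finite κ]

/-- the vector is proportional to a vector over the subfield -/
def Prp (v : κ → L) (F : IntermediateField C L) : Prop :=
  ∃ (g : L) (u : κ → L), (∀ j, u j ∈ F) ∧ ∀ j, v j = g * u j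

theorem stage {E : C → C → Prop} {F : IntermediateField C L} (h : Good E F) {v : κ → L}
    (h0 : ¬ Prp v (⊥ : IntermediateField C L)) : Prp v F →
    (∃ (F' : IntermediateField C L) (q : L), Transcendental F' q ∧
      Prp v (IntermediateField.adjoin C ((F' : Set L) ∪ {q})) ∧ ¬ Prp v F') ∨
    (∃ (F' : IntermediateField C L) (a b : C) (x y : L), E a b ∧ 4 * a ^ 3 + 27 * b ^ 2 ≠ 0 ∧
      Transcendental F' x ∧ y ^ 2 = x ^ 3 + algebraMap C L a * x + algebraMap C L b ∧
      Prp v (IntermediateField.adjoin C ((F' : Set L) ∪ {x, y})) ∧ ¬ Prp v F') := by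
  induction h with
  | bot => exact fun h => absurd h h0
  | @step F τ P h hτ hP ih =>
    intro hv
    by_cases hall : Prp v F
    · exact ih hall
    have hone : ∀ q : L, Transcendental F q → τ.adj F P =
        IntermediateField.adjoin C ((F : Set L) ∪ {q}) → ∃ (F' : IntermediateField C L) (q : L),
          Transcendental F' q ∧
          Prp v (IntermediateField.adjoin C ((F' : Set L) ∪ {q})) ∧ ¬ Prp v F' := by
      intro q hq hadj
      rw [hadj] at hv
      exact ⟨F, q, hq, hv, hall⟩
    have hell : AE E τ → ∃ (F' : IntermediateField C L) (a b : C) (x y : L), E a b ∧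
        4 * a ^ 3 + 27 * b ^ 2 ≠ 0 ∧
        Transcendental F' x ∧ y ^ 2 = x ^ 3 + algebraMap C L a * x + algebraMap C L b ∧
        Prp v (IntermediateField.adjoin C ((F' : Set L) ∪ {x, y})) ∧ ¬ Prp v F' := by
      rintro ⟨a', b', hE, hd, rfl⟩
      obtain ⟨x', y', hc, hx', -, -, heq⟩ := gen_ell hP
      have hF2 : (Ell a' b').adj F P =
          IntermediateField.adjoin C ((F : Set L) ∪ {x', y'}) := by
        rw [adj_eq, hc]
        congr 2
        ext w
        simp
      rw [hF2] at hv
      exact ⟨F, a', b', x', y', hE, hd, hx', heq, hv, hall⟩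
    rcases hτ with (rfl | hτ) | (rfl | hτ)
    · obtain ⟨q, hq, hqt⟩ := hP
      have hq' : q = ((Additive.toMul P : Lˣ) : L) := List.mem_singleton.1 hq
      refine Or.inl (hone q hqt ?_)
      rw [adj_eq]
      congr 2
      ext w
      rw [hq', Set.mem_singleton_iff]
      exact List.mem_singleton
    · exact Or.inr (hell hτ)
    · obtain ⟨q, hq, hqt⟩ := hP
      have hq' : q = (P : L) := List.mem_singleton.1 hq
      refine Or.inl (hone q hqt ?_)
      rw [adj_eq]
      congr 2
      ext w
      rw [hq', Set.mem_singleton_iff]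
      exact List.mem_singleton
    · exact Or.inr (hell hτ)

/-- common denominators -/
theorem common {M : Type} [Field M] [Algebra M L] {q : L} (hq : Transcendental M q)
    {u : κ → L} (hu : ∀ j, u j ∈ IntermediateField.adjoin M {q}) :
    ∃ (c : L) (W : κ → M[X]), ∀ j, u j = c * aeval q (W j) := by
  classical
  have := Fintype.ofFinite κ
  have h1 : ∀ j, ∃ P Q : M[X], aeval q Q ≠ 0 ∧ u j = aeval q P / aeval q Q := by
    intro j
    obtain ⟨P, Q, hPQ⟩ := (mem_adjoin_simple_iff M (u j)).1 (hu j)
    by_cases h0 : aeval q Q = 0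
    · refine ⟨0, 1, by simp, ?_⟩
      rw [hPQ, h0]
      simp
    · exact ⟨P, Q, h0, hPQ⟩
  choose P Q hQ hPQ using h1
  refine ⟨(∏ j, aeval q (Q j))⁻¹, fun j => P j * ∏ i ∈ Finset.univ.erase j, Q i, fun j => ?_⟩
  rw [hPQ j, ← Finset.mul_prod_erase Finset.univ (fun j => aeval q (Q j)) (Finset.mem_univ j),
    map_mul, map_prod]
  have h2 : ∏ i ∈ Finset.univ.erase j, aeval q (Q i) ≠ 0 :=
    Finset.prod_ne_zero_iff.2 fun i _ => hQ i
  have h3 := hQ j
  field_simp

/-- proportional coefficient vectors -/
theorem prop_of {M : Type} [Field M] {σ : Type} {w : κ → σ → M}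
    (h : ∀ i j s t, w i s * w j t = w j s * w i t) :
    ∃ (c : κ → M) (w0 : σ → M), ∀ i s, w i s = c i * w0 s := by
  by_cases h0 : ∃ j t, w j t ≠ 0
  · obtain ⟨j, t, hjt⟩ := h0
    refine ⟨fun i => w i t / w j t, w j, fun i s => ?_⟩
    rw [div_mul_eq_mul_div, eq_div_iff hjt, h i j s t, mul_comm]
  · push Not at h0
    exact ⟨fun _ => 0, fun _ => 0, fun i s => by rw [h0 i s, zero_mul]⟩

theorem aeval_wt {A : Type} [CommRing A] [Algebra C A]
    {e : ℕ} {F : MvPolynomial κ C} (hF : F.IsHomogeneous e) (c : A) (x : κ → A) :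
    MvPolynomial.aeval (fun j => c * x j) F = c ^ e * MvPolynomial.aeval x F := by
  classical
  rw [MvPolynomial.aeval_def, MvPolynomial.aeval_def, MvPolynomial.eval₂_eq, MvPolynomial.eval₂_eq,
    Finset.mul_sum]
  refine Finset.sum_congr rfl fun m hm => ?_
  have h1 : ∑ i ∈ m.support, m i = e := by
    have h2 := hF (MvPolynomial.mem_support_iff.1 hm)
    rw [Finsupp.weight_apply, Finsupp.sum] at h2
    simpa using h2
  simp only [mul_pow]
  rw [Finset.prod_mul_distrib, Finset.prod_pow_eq_pow_sum, h1]
  ring

/-- **The rational stage.** -/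
theorem rat_stage {F' : IntermediateField C L} {q : L} (hq : Transcendental F' q) {v : κ → L}
    (h1 : Prp v (IntermediateField.adjoin C ((F' : Set L) ∪ {q}))) (h2 : ¬ Prp v F') :
    ∃ (g : L) (V : κ → L[X]), (∀ j, v j = g * (V j).eval q) ∧
      (∃ i j m k, (V i).coeff m * (V j).coeff k ≠ (V j).coeff m * (V i).coeff k) ∧
      ∀ (e : ℕ) (G : MvPolynomial κ C), G.IsHomogeneous e → MvPolynomial.aeval v G = 0 →
        (MvPolynomial.aeval V G : L[X]) = 0 := by
  obtain ⟨g, u, hu, hv⟩ := h1
  have hu' : ∀ j, u j ∈ IntermediateField.adjoin F' {q} := by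
    intro j
    have h3 := hu j
    rw [← IntermediateField.restrictScalars_adjoin] at h3
    exact h3
  obtain ⟨c, W, hW⟩ := common hq hu'
  have hev : ∀ P : F'[X], (P.map (algebraMap F' L)).eval q = aeval q P := fun P => by
    rw [eval_map_algebraMap]
  have hv' : ∀ j, v j = g * c * aeval q (W j) := fun j => by rw [hv, hW, mul_assoc]
  have hgc : g * c ≠ 0 := by
    intro h0
    apply h2
    exact ⟨0, fun _ => 0, fun _ => zero_mem _, fun j => by rw [hv', h0]; simp⟩
  refine ⟨g * c, fun j => (W j).map (algebraMap F' L), fun j => by rw [hv', hev], ?_, ?_⟩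
  · by_contra hcon
    push Not at hcon
    apply h2
    have h3 : ∀ i j m k, (W i).coeff m * (W j).coeff k = (W j).coeff m * (W i).coeff k := by
      intro i j m k
      have h4 := hcon i j m k
      simp only [coeff_map] at h4
      rw [← map_mul, ← map_mul] at h4
      exact (algebraMap F' L).injective h4
    obtain ⟨c', w0, hw0⟩ := prop_of (w := fun j m => (W j).coeff m) h3
    by_cases hz : ∀ j, W j = 0
    · exact ⟨0, fun _ => 0, fun _ => zero_mem _, fun j => by rw [hv', hz]; simp⟩
    push Not at hz
    obtain ⟨l, hl⟩ := hz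
    have hcl : c' l ≠ 0 := by
      intro h0
      apply hl
      ext m
      rw [coeff_zero]
      have := hw0 l m
      simp only [h0, zero_mul] at this
      rw [this]
    refine ⟨g * c * aeval q (W l), fun j => algebraMap F' L (c' j / c' l), fun j => (c' j / c' l).2,
      fun j => ?_⟩
    have h5 : W j = Polynomial.C (c' j / c' l) * W l := by
      ext m
      rw [coeff_C_mul]
      have e1 : (W j).coeff m = c' j * w0 m := hw0 j m
      have e2 : (W l).coeff m = c' l * w0 m := hw0 l m
      rw [e1, e2]
      field_simp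
    rw [hv', h5, map_mul, aeval_C]
    ring
  · intro e G hG h3
    have h4 : MvPolynomial.aeval (fun j => g * c * aeval q (W j)) G = 0 := by
      rw [← h3]
      congr 2
      funext j
      exact (hv' j).symm
    rw [aeval_wt hG, mul_eq_zero, or_iff_right (pow_ne_zero _ hgc)] at h4
    -- the polynomial identity
    have h5 : (MvPolynomial.aeval W G : F'[X]) = 0 := by
      have h6 : (aeval q : F'[X] →ₐ[F'] L) (MvPolynomial.aeval W G : F'[X]) = 0 := by
        rw [← h4]
        have := MvPolynomial.comp_aeval_apply (f := W)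
          (((aeval q : F'[X] →ₐ[F'] L)).restrictScalars C) G
        exact this
      exact transcendental_iff_injective.1 hq (by rw [h6, map_zero])
    have h7 := MvPolynomial.comp_aeval_apply (f := W)
      ((Polynomial.mapAlgHom (Algebra.ofId F' L)).restrictScalars C) G
    have h8 : ((Polynomial.mapAlgHom (Algebra.ofId F' L)).restrictScalars C)
        (MvPolynomial.aeval W G : F'[X]) = 0 := by rw [h5, map_zero]
    rw [← h8, h7]
    rfl

end

end Pool.Agent.Helper6.EV
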